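import Pool.Agent.H78.LR.Eng2

/-!
# Borsuk-Ulam in label form (Lusternik-Schnirelmann) for `q = 2`

On the nonzero vectors of `ℝ^(M+1)` there is no odd, locally compatible labelling by signs and
`M` colours.
-/

namespace Pool.Agent.H37.BU

open Pool.Agent.H73.Avr Pool.Agent.H78.LR

/-- nonzero vectors -/
abbrev Sp (M : ℕ) : Type := {z : Fin (M + 1) → ℝ // z ≠ 0}

/-- antipode -/
def ng (M : ℕ) (z : Sp M) : Sp M := ⟨-z.1, neg_ne_zero.2 z.2⟩

theorem ng_two (M : ℕ) : (ng M)^[2] = id := by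
  funext z
  apply Subtype.ext
  show -(-z.1) = z.1
  rw [neg_neg]

theorem ng_iter (M s : ℕ) (z : Sp M) : ((ng M)^[s] z).1 = (-1 : ℝ) ^ s • z.1 := by
  induction s with
  | zero => simp
  | succ s ih =>
    rw [Function.iterate_succ_apply']
    show -((ng M)^[s] z).1 = _
    rw [ih, pow_succ]; simp

/-- basis vector number `min k M` -/
def ev (M k : ℕ) : Fin (M + 1) → ℝ := fun i => if (i : ℕ) = min k M then 1 else 0

theorem ev_ne (M k : ℕ) : ev M k ≠ 0 := by
  intro h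
  have := congrFun h ⟨min k M, by omega⟩
  simp [ev] at this

/-- straight line from `x` to the basis vector number `k+1` -/
def cnd {M : ℕ} (k : ℕ) (x : Fin (M + 1) → ℝ) (τ : ℝ) : Fin (M + 1) → ℝ :=
  (1 - τ) • x + τ • ev M (k + 1)

open Classical in
/-- homotopy -/
noncomputable def HH {M : ℕ} (k : ℕ) (x : Sp M) (t : ℝ) : Sp M :=
  if h : cnd k x.1 (max 0 (min 1 t)) ≠ 0 then ⟨cnd k x.1 (max 0 (min 1 t)), h⟩ else x

theorem HH_zero {M : ℕ} (k : ℕ) (x : Sp M) : HH k x 0 = x := by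
  have h0 : cnd k x.1 (max 0 (min 1 (0 : ℝ))) = x.1 := by
    simp [cnd]
  unfold HH
  split_ifs with h
  · exact Subtype.ext h0
  · rfl

theorem HH_val {M : ℕ} (k : ℕ) (x : Sp M) (t : ℝ) (h : cnd k x.1 (max 0 (min 1 t)) ≠ 0) :
    (HH k x t).1 = cnd k x.1 (max 0 (min 1 t)) := by
  unfold HH
  rw [dif_pos h]

theorem HH_one {M : ℕ} (k : ℕ) (x : Sp M) : HH k x 1 = ⟨ev M (k + 1), ev_ne M (k + 1)⟩ := by
  have h0 : cnd k x.1 (max 0 (min 1 (1 : ℝ))) = ev M (k + 1) := by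
    simp [cnd]
  unfold HH
  rw [dif_pos (by rw [h0]; exact ev_ne M (k + 1))]
  exact Subtype.ext h0

theorem stage {M : ℕ} (x0 : Sp M) (hx0 : ∀ i : Fin (M + 1), 0 < (i : ℕ) → x0.1 i = 0)
    (k : ℕ) (hk : k ≤ M) (a : ℕ → ℕ) :
    (∀ t, ∀ i : Fin (M + 1), k < (i : ℕ) → (theta' HH (ng M) x0 k a t).1 i = 0) ∧
      Continuous (fun t => (theta' HH (ng M) x0 k a t).1) := by
  induction k with
  | zero =>
    refine ⟨fun t i hi => hx0 i hi, ?_⟩
    show Continuous (fun _ : ℕ → ℝ => x0.1)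
    exact continuous_const
  | succ k ih =>
    obtain ⟨h1, h2⟩ := ih (by omega)
    have key : ∀ t, (theta' HH (ng M) x0 (k + 1) a t).1 =
        cnd k ((-1 : ℝ) ^ (a k) • (theta' HH (ng M) x0 k a t).1) (max 0 (min 1 (t k))) := by
      intro t
      show (HH k ((ng M)^[a k] (theta' HH (ng M) x0 k a t)) (t k)).1 = _
      have hne : cnd k ((ng M)^[a k] (theta' HH (ng M) x0 k a t)).1 (max 0 (min 1 (t k))) ≠ 0 := by
        set y := (ng M)^[a k] (theta' HH (ng M) x0 k a t) with hy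
        set τ := max 0 (min 1 (t k)) with hτ
        have hy0 : ∀ i : Fin (M + 1), k < (i : ℕ) → y.1 i = 0 := by
          intro i hi
          rw [hy, ng_iter]
          simp [h1 t i hi]
        intro hz
        have e1 : τ = 0 := by
          have := congrFun hz ⟨k + 1, by omega⟩
          simp only [cnd, Pi.add_apply, Pi.smul_apply, smul_eq_mul, Pi.zero_apply] at this
          rw [hy0 ⟨k + 1, by omega⟩ (by simp)] at this
          have e2 : ev M (k + 1) ⟨k + 1, by omega⟩ = 1 := by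
            simp only [ev]; rw [if_pos]; show k + 1 = min (k + 1) M; omega
          rw [e2] at this
          linarith
        rw [e1] at hz
        apply y.2
        simpa [cnd] using hz
      rw [HH_val _ _ _ hne, ng_iter]
    refine ⟨fun t i hi => ?_, ?_⟩
    · rw [key]
      simp only [cnd, Pi.add_apply, Pi.smul_apply, smul_eq_mul]
      rw [h1 t i (by omega)]
      have : ev M (k + 1) i = 0 := by
        simp only [ev]; rw [if_neg]; omega
      rw [this]; ring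
    · have : (fun t => (theta' HH (ng M) x0 (k + 1) a t).1) = fun t =>
          cnd k ((-1 : ℝ) ^ (a k) • (theta' HH (ng M) x0 k a t).1) (max 0 (min 1 (t k))) :=
        funext key
      rw [this]
      unfold cnd
      have hτ : Continuous (fun t : ℕ → ℝ => max 0 (min 1 (t k))) := by fun_prop
      have h3 : Continuous (fun t => (-1 : ℝ) ^ (a k) • (theta' HH (ng M) x0 k a t).1) :=
        (continuous_const_smul ((-1 : ℝ) ^ (a k))).comp h2
      have h4 : Continuous (fun t : ℕ → ℝ => 1 - max 0 (min 1 (t k))) := continuous_const.sub hτ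
      have h5 : Continuous (fun t : ℕ → ℝ => (max 0 (min 1 (t k))) • ev M (k + 1)) :=
        Continuous.fun_smul hτ continuous_const
      exact Continuous.fun_add (Continuous.fun_smul h4 h3) h5

/-- **Borsuk-Ulam / Lusternik-Schnirelmann in label form.** -/
theorem ls (M : ℕ) (ℓ : Sp M → ZMod 2 × ℕ) (hℓ : ∀ x, ℓ (ng M x) = ((ℓ x).1 + 1, (ℓ x).2))
    (hM : ∀ x, (ℓ x).2 < M)
    (hloc : ∀ x, ∃ U : Set (Sp M), IsOpen U ∧ x ∈ U ∧ ∀ y ∈ U, ∀ z ∈ U, Compat (ℓ y) (ℓ z)) :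
    False := by
  let x0 : Sp M := ⟨ev M 0, ev_ne M 0⟩
  refine engine' (q := 2) (by norm_num) M (ng_two M) ℓ hℓ hM hloc HH x0
    (fun k => ⟨ev M (k + 1), ev_ne M (k + 1)⟩) HH_zero HH_one ?_
  intro k hk a _
  refine continuous_induced_rng.2 (stage x0 ?_ k hk a).2
  intro i hi
  show ev M 0 i = 0
  simp only [ev]; rw [if_neg]; omega

/-- transported form: `Y` with an involution `τ` and a continuous equivariant map from the sphere -/
theorem ls_map {Y : Type*} [TopologicalSpace Y] (M : ℕ) (τ : Y → Y) (j : Sp M → Y)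
    (hj : Continuous j) (hjτ : ∀ x, j (ng M x) = τ (j x)) (ℓ : Y → ZMod 2 × ℕ)
    (hℓ : ∀ x, ℓ (τ (j x)) = ((ℓ (j x)).1 + 1, (ℓ (j x)).2)) (hM : ∀ x, (ℓ (j x)).2 < M)
    (hloc : ∀ x, ∃ U : Set Y, IsOpen U ∧ x ∈ U ∧ ∀ y ∈ U, ∀ z ∈ U, Compat (ℓ y) (ℓ z)) :
    False := by
  refine ls M (fun x => ℓ (j x)) (fun x => by rw [hjτ, hℓ]) hM ?_
  intro x
  obtain ⟨U, hU, hx, h⟩ := hloc (j x)
  exact ⟨j ⁻¹' U, hU.preimage hj, hx, fun y hy z hz => h _ hy _ hz⟩

/-- form for a finite dimensional real vector space -/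
theorem ls_vec {E : Type*} [NormedAddCommGroup E] [NormedSpace ℝ E] [FiniteDimensional ℝ E]
    (M : ℕ) (hE : Module.finrank ℝ E = M + 1) (ℓ : E → ZMod 2 × ℕ)
    (hℓ : ∀ x, x ≠ 0 → ℓ (-x) = ((ℓ x).1 + 1, (ℓ x).2)) (hM : ∀ x, x ≠ 0 → (ℓ x).2 < M)
    (hloc : ∀ x, x ≠ 0 → ∃ δ > 0, ∀ y z, dist y x < δ → dist z x < δ → y ≠ 0 → z ≠ 0 →
      Compat (ℓ y) (ℓ z)) : False := by
  let L : (Fin (M + 1) → ℝ) ≃ₗ[ℝ] E := LinearEquiv.ofFinrankEq _ _ (by rw [hE]; simp)
  have hL : Continuous L := L.toLinearMap.continuous_of_finiteDimensional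
  have hne : ∀ x : Sp M, L x.1 ≠ 0 := fun x h => x.2 (L.map_eq_zero_iff.1 h)
  refine ls M (fun x => ℓ (L x.1)) (fun x => ?_) (fun x => hM _ (hne x)) (fun x => ?_)
  · show ℓ (L (-x.1)) = _
    rw [map_neg, hℓ _ (hne x)]
  · obtain ⟨δ, hδ, h⟩ := hloc _ (hne x)
    refine ⟨(fun y : Sp M => L y.1) ⁻¹' Metric.ball (L x.1) δ,
      Metric.isOpen_ball.preimage (hL.comp continuous_subtype_val), by simp [hδ], ?_⟩
    intro y hy z hz
    exact h _ _ hy hz (hne y) (hne z)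

end Pool.Agent.H37.BU
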