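import Pool.Agent.H37.BU.Tuck

/-!
# Polytopal Tucker lemma: labels on faces and labels on vertices
-/

namespace Pool.Agent.H37.BU

open Pool.Agent.H73.Avr

variable {E : Type*} [NormedAddCommGroup E] [NormedSpace ℝ E] [FiniteDimensional ℝ E]
  {S : Type*} [Fintype S] [DecidableEq S]

theorem arg_add (p : S → E →ₗ[ℝ] ℝ) {w w' : E} {t : S} (h : t ∈ arg (fun s => p s) w)
    (h' : t ∈ arg (fun s => p s) w') :
    arg (fun s => p s) (w + w') = arg (fun s => p s) w ∩ arg (fun s => p s) w' := by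
  have hh := mem_arg.1 h
  have hh' := mem_arg.1 h'
  ext s
  rw [Finset.mem_inter, mem_arg, mem_arg, mem_arg]
  constructor
  · intro hs
    have h1 := hs t
    simp only [map_add] at h1
    have h2 := hh s
    have h3 := hh' s
    constructor
    · intro r
      have := hh r
      linarith
    · intro r
      have := hh' r
      linarith
  · rintro ⟨h1, h2⟩ r
    have h3 := h1 r
    have h4 := h2 r
    simp only [map_add] at h3 h4 ⊢
    linarith

/-- **Tucker lemma for the face lattice.** `μ` is a labelling of the proper faces. -/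
theorem tucker_face (M : ℕ) (hE : Module.finrank ℝ E = M + 1) (p : S → E →ₗ[ℝ] ℝ) (σ : S → S)
    (hσ : ∀ s, σ (σ s) = s) (hp : ∀ s w, p (σ s) w = - p s w)
    (hsep : ∀ w : E, w ≠ 0 → ∃ s, p s w ≠ 0) (μ : Finset S → ZMod 2 × ℕ)
    (hodd : ∀ T, IsFc (fun s => (p s : E → ℝ)) T → μ (T.image σ) = flp (μ T))
    (hM : ∀ T, IsFc (fun s => (p s : E → ℝ)) T → (μ T).2 < M)
    (hc : ∀ T T', IsFc (fun s => (p s : E → ℝ)) T → IsFc (fun s => (p s : E → ℝ)) T' → T ⊆ T' →
      Compat (μ T) (μ T')) : False := by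
  classical
  have hS : Nonempty S := by
    have : Nontrivial E := by
      apply Module.nontrivial_of_finrank_pos (R := ℝ)
      omega
    obtain ⟨w, hw⟩ := exists_ne (0 : E)
    exact ⟨(hsep w hw).choose⟩
  have hnat : ∀ s (w : E), p s (-w) = - p s w := fun s w => by simp
  -- maximum is positive
  have hpos : ∀ w : E, w ≠ 0 → ∀ t ∈ arg (fun s => (p s : E → ℝ)) w, 0 < p t w := by
    intro w hw t ht
    rw [mem_arg] at ht
    obtain ⟨s, hs⟩ := hsep w hw
    rcases lt_or_gt_of_ne hs with h | h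
    · have := ht (σ s)
      simp only [hp] at this
      linarith
    · have := ht s
      linarith
  -- minimal face containing T
  let Pr : Finset S → Finset S → Prop := fun T F => IsFc (fun s => (p s : E → ℝ)) F ∧ T ⊆ F ∧
    ∀ F', IsFc (fun s => (p s : E → ℝ)) F' → T ⊆ F' → F ⊆ F'
  have hmin : ∀ T : Finset S, T.Nonempty → (∃ w, w ≠ 0 ∧ T ⊆ arg (fun s => (p s : E → ℝ)) w) →
      ∃ F, Pr T F := by
    intro T hT ⟨w, hw, hTw⟩
    obtain ⟨t, ht⟩ := hT
    let 𝓕 : Finset (Finset S) := Finset.univ.filter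
      (fun F => IsFc (fun s => (p s : E → ℝ)) F ∧ T ⊆ F)
    have hne : 𝓕.Nonempty := ⟨arg (fun s => (p s : E → ℝ)) w, by
      simp only [𝓕, Finset.mem_filter, Finset.mem_univ, true_and]
      exact ⟨⟨w, hw, rfl⟩, hTw⟩⟩
    obtain ⟨F, hF, hFm⟩ := Finset.exists_min_image 𝓕 Finset.card hne
    simp only [𝓕, Finset.mem_filter, Finset.mem_univ, true_and] at hF hFm
    refine ⟨F, hF.1, hF.2, fun F' hF' hTF' => ?_⟩
    obtain ⟨w1, h1, rfl⟩ := hF.1
    obtain ⟨w2, h2, rfl⟩ := hF'
    have e := arg_add p (hF.2 ht) (hTF' ht)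
    have hne0 : w1 + w2 ≠ 0 := by
      intro h0
      have a1 := hpos w1 h1 t (hF.2 ht)
      have a2 := hpos w2 h2 t (hTF' ht)
      have : p t (w1 + w2) = 0 := by rw [h0]; simp
      rw [map_add] at this
      linarith
    have h3 := hFm (arg (fun s => (p s : E → ℝ)) (w1 + w2)) ⟨⟨_, hne0, rfl⟩, by
      rw [e]; exact Finset.subset_inter hF.2 hTF'⟩
    rw [e] at h3
    have h4 : arg (fun s => (p s : E → ℝ)) w1 ∩ arg (fun s => (p s : E → ℝ)) w2 =
        arg (fun s => (p s : E → ℝ)) w1 :=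
      Finset.eq_of_subset_of_card_le Finset.inter_subset_left h3
    rw [← h4]
    exact Finset.inter_subset_right
  have huniq : ∀ T F F', Pr T F → Pr T F' → F = F' := by
    intro T F F' h h'
    exact Finset.Subset.antisymm (h.2.2 _ h'.1 h'.2.1) (h'.2.2 _ h.1 h.2.1)
  have himg : ∀ F, IsFc (fun s => (p s : E → ℝ)) F → IsFc (fun s => (p s : E → ℝ)) (F.image σ) := by
    rintro F ⟨w, hw, rfl⟩
    refine ⟨-w, neg_ne_zero.2 hw, ?_⟩
    exact Am_neg hσ hp hnat w 0
  have hinv : ∀ F : Finset S, (F.image σ).image σ = F := by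
    intro F
    rw [Finset.image_image]
    have : σ ∘ σ = id := funext hσ
    rw [this, Finset.image_id]
  have hPim : ∀ T F, Pr T F → Pr (T.image σ) (F.image σ) := by
    intro T F h
    refine ⟨himg F h.1, Finset.image_subset_image h.2.1, fun F' hF' hTF' => ?_⟩
    have h1 := h.2.2 (F'.image σ) (himg F' hF') (by
      rw [← hinv T]; exact Finset.image_subset_image hTF')
    rw [← hinv F']
    exact Finset.image_subset_image h1
  let mf : Finset S → Finset S := fun T => if h : ∃ F, Pr T F then h.choose else T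
  have hmf : ∀ T : Finset S, T.Nonempty → (∃ w, w ≠ 0 ∧ T ⊆ arg (fun s => (p s : E → ℝ)) w) →
      Pr T (mf T) := by
    intro T h1 h2
    have h := hmin T h1 h2
    simp only [mf, dif_pos h]
    exact h.choose_spec
  have hTim : ∀ T : Finset S, (∃ w, w ≠ 0 ∧ T ⊆ arg (fun s => (p s : E → ℝ)) w) →
      ∃ w, w ≠ 0 ∧ T.image σ ⊆ arg (fun s => (p s : E → ℝ)) w := by
    rintro T ⟨w, hw, h⟩
    refine ⟨-w, neg_ne_zero.2 hw, ?_⟩
    have : arg (fun s => (p s : E → ℝ)) (-w) = (arg (fun s => (p s : E → ℝ)) w).image σ :=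
      Am_neg hσ hp hnat w 0
    rw [this]
    exact Finset.image_subset_image h
  refine tucker_set M hE p σ hσ hp (fun T => μ (mf T)) ?_ ?_ ?_
  · intro T hT hw
    have h1 := hmf T hT hw
    have h2 := hmf (T.image σ) (hT.image σ) (hTim T hw)
    have h3 := huniq _ _ _ h2 (hPim _ _ h1)
    show μ (mf (T.image σ)) = _
    rw [h3]
    exact hodd _ h1.1
  · intro T hT hw
    exact hM _ (hmf T hT hw).1
  · intro T T' hT hTT' hw
    have h1 := hmf T hT (by obtain ⟨w, a, b⟩ := hw; exact ⟨w, a, hTT'.trans b⟩)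
    have h2 := hmf T' (hT.mono hTT') hw
    exact hc _ _ h1.1 h2.1 (h1.2.2 _ h2.1 (hTT'.trans h2.2.1))

/-- **Polytopal Tucker lemma, labels on the vertices.** `lam` is an odd labelling of `S` with `M`
colours; then some proper face has no unopposed label. -/
theorem tucker_vertex (M : ℕ) (hE : Module.finrank ℝ E = M + 1) (p : S → E →ₗ[ℝ] ℝ) (σ : S → S)
    (hσ : ∀ s, σ (σ s) = s) (hp : ∀ s w, p (σ s) w = - p s w)
    (hsep : ∀ w : E, w ≠ 0 → ∃ s, p s w ≠ 0) (lam : S → ZMod 2 × ℕ)
    (hodd : ∀ s, lam (σ s) = flp (lam s)) (hM : ∀ s, (lam s).2 < M) :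
    ∃ w : E, w ≠ 0 ∧ ∀ s ∈ arg (fun s => (p s : E → ℝ)) w,
      ∃ t ∈ arg (fun s => (p s : E → ℝ)) w, lam t = flp (lam s) := by
  classical
  by_contra hcon
  push Not at hcon
  -- every face has an unopposed label
  have hun : ∀ T, IsFc (fun s => (p s : E → ℝ)) T → ∃ s ∈ T, ∀ t ∈ T, Compat (lam s) (lam t) := by
    rintro T ⟨w, hw, rfl⟩
    obtain ⟨s, hs, h⟩ := hcon w hw
    refine ⟨s, hs, fun t ht e => ?_⟩
    by_contra hne
    apply h t ht
    apply Prod.ext
    · show (lam t).1 = (lam s).1 + 1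
      have : ∀ a b : ZMod 2, ¬ a = b → b = a + 1 := by decide
      exact this _ _ hne
    · exact e.symm
  have hnat : ∀ s (w : E), p s (-w) = - p s w := fun s w => by simp
  have himg : ∀ F, IsFc (fun s => (p s : E → ℝ)) F → IsFc (fun s => (p s : E → ℝ)) (F.image σ) := by
    rintro F ⟨w, hw, rfl⟩
    exact ⟨-w, neg_ne_zero.2 hw, Am_neg hσ hp hnat w 0⟩
  have hinv : ∀ F : Finset S, (F.image σ).image σ = F := by
    intro F
    rw [Finset.image_image]
    have : σ ∘ σ = id := funext hσ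
    rw [this, Finset.image_id]
  have hdis : ∀ F, IsFc (fun s => (p s : E → ℝ)) F → F.image σ ≠ F := by
    rintro F ⟨w, hw, rfl⟩ he
    obtain ⟨s, hs⟩ := hsep w hw
    have hS : Nonempty S := ⟨s⟩
    obtain ⟨t, ht⟩ := Am_ne (p := fun s => (p s : E → ℝ)) (w := w) (le_refl (0 : ℝ))
    have h1 : σ t ∈ arg (fun s => (p s : E → ℝ)) w := by
      rw [← he]; exact Finset.mem_image_of_mem σ ht
    have h2 := mem_arg.1 h1
    have h3 := mem_arg.1 (show t ∈ arg (fun s => (p s : E → ℝ)) w from ht)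
    have a1 := h2 s
    have a2 := h2 (σ s)
    have a3 := h3 s
    have a4 := h3 (σ s)
    simp only [hp] at a1 a2 a3 a4
    apply hs
    linarith
  let e : Finset S ≃ Fin (Fintype.card (Finset S)) := Fintype.equivFin _
  let ch : Finset S → ZMod 2 × ℕ := fun T =>
    if h : ∃ s ∈ T, ∀ t ∈ T, Compat (lam s) (lam t) then lam h.choose else (0, 0)
  have hch : ∀ T, IsFc (fun s => (p s : E → ℝ)) T → ∃ s ∈ T, ch T = lam s ∧
      ∀ t ∈ T, Compat (lam s) (lam t) := by
    intro T hT
    have h := hun T hT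
    refine ⟨h.choose, h.choose_spec.1, ?_, h.choose_spec.2⟩
    simp only [ch, dif_pos h]
  let μ : Finset S → ZMod 2 × ℕ := fun T => if e T < e (T.image σ) then ch T else flp (ch (T.image σ))
  have hμ : ∀ T, IsFc (fun s => (p s : E → ℝ)) T → ∃ s ∈ T, μ T = lam s ∧
      ∀ t ∈ T, Compat (lam s) (lam t) := by
    intro T hT
    by_cases h : e T < e (T.image σ)
    · simp only [μ, if_pos h]
      exact hch T hT
    · simp only [μ, if_neg h]
      obtain ⟨s, hs, h1, h2⟩ := hch _ (himg T hT)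
      refine ⟨σ s, ?_, ?_, ?_⟩
      · rw [← hinv T]; exact Finset.mem_image_of_mem σ hs
      · rw [h1, hodd]
      · intro t ht
        have := h2 (σ t) (Finset.mem_image_of_mem σ ht)
        have h3 := compat_flp this
        rw [hodd]
        rw [hodd, flp_flp] at h3
        exact h3
  refine tucker_face M hE p σ hσ hp hsep μ ?_ ?_ ?_
  · intro T hT
    have hne := hdis T hT
    rcases lt_trichotomy (e T) (e (T.image σ)) with h | h | h
    · have h' : ¬ e (T.image σ) < e T := by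
        exact not_lt.2 h.le
      simp only [μ, hinv, if_pos h, if_neg h']
    · exact absurd (e.injective h).symm hne
    · have h' : ¬ e T < e (T.image σ) := not_lt.2 h.le
      simp only [μ, hinv, if_pos h, if_neg h', flp_flp]
  · intro T hT
    obtain ⟨s, _, h, _⟩ := hμ T hT
    rw [h]; exact hM s
  · intro T T' hT hT' hTT'
    obtain ⟨s, hs, h1, _⟩ := hμ T hT
    obtain ⟨s', hs', h3, h4⟩ := hμ T' hT'
    rw [h1, h3]
    exact compat_symm (h4 s (hTT' hs))

end Pool.Agent.H37.BU
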