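import Pool.Agent.H37.BU.LS

/-!
# Polytopal Tucker lemma

`S` a finite symmetric family of linear functionals (the vertices of a symmetric polytope) on a
vector space of dimension `M + 1`, `arg w` the set of maximisers of `w`; the faces are the sets
`arg w`, `w ≠ 0`. There is no odd labelling of the faces by signs and `M` colours in which nested
faces never have opposite labels; in particular for an odd labelling of `S` some face has no
unopposed label.
-/

namespace Pool.Agent.H37.BU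

open Pool.Agent.H73.Avr

/-- the opposite label -/
def flp (u : ZMod 2 × ℕ) : ZMod 2 × ℕ := (u.1 + 1, u.2)

theorem compat_symm {u v : ZMod 2 × ℕ} (h : Compat u v) : Compat v u := fun e => (h e.symm).symm

theorem compat_flp {u v : ZMod 2 × ℕ} (h : Compat u v) : Compat (flp u) (flp v) := by
  intro e
  show u.1 + 1 = v.1 + 1
  rw [h e]

theorem flp_flp (u : ZMod 2 × ℕ) : flp (flp u) = u := by
  apply Prod.ext
  · show u.1 + 1 + 1 = u.1
    rw [add_assoc]
    have : (1 : ZMod 2) + 1 = 0 := by decide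
    rw [this, add_zero]
  · rfl

/-- labels on the unit sphere of a normed space of dimension `M + 1` -/
theorem ls_sph {E : Type*} [NormedAddCommGroup E] [NormedSpace ℝ E] [FiniteDimensional ℝ E]
    (M : ℕ) (hE : Module.finrank ℝ E = M + 1) (ℓ : E → ZMod 2 × ℕ)
    (hℓ : ∀ x, ‖x‖ = 1 → ℓ (-x) = flp (ℓ x)) (hM : ∀ x, ‖x‖ = 1 → (ℓ x).2 < M)
    (hloc : ∃ δ > 0, ∀ y z, ‖y‖ = 1 → ‖z‖ = 1 → dist y z < δ → Compat (ℓ y) (ℓ z)) :
    False := by
  obtain ⟨δ, hδ, hloc⟩ := hloc
  have hn : ∀ x : E, x ≠ 0 → ‖(‖x‖⁻¹ : ℝ) • x‖ = 1 := by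
    intro x hx
    rw [norm_smul, norm_inv, norm_norm, inv_mul_cancel₀ (norm_ne_zero_iff.2 hx)]
  refine ls_vec (E := E) M hE (fun x => ℓ ((‖x‖⁻¹ : ℝ) • x)) ?_ ?_ ?_
  · intro x hx
    show ℓ ((‖-x‖⁻¹ : ℝ) • -x) = flp _
    rw [norm_neg, smul_neg, hℓ _ (hn x hx)]
  · intro x hx
    exact hM _ (hn x hx)
  · intro x hx
    have hc : ContinuousAt (fun y : E => (‖y‖⁻¹ : ℝ) • y) x := by
      apply ContinuousAt.smul
      · exact (continuous_norm.continuousAt).inv₀ (norm_ne_zero_iff.2 hx)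
      · exact continuousAt_id
    obtain ⟨r, hr, h⟩ := Metric.continuousAt_iff.1 hc (δ / 2) (by linarith)
    refine ⟨r, hr, fun y z hy hz hy0 hz0 => hloc _ _ (hn y hy0) (hn z hz0) ?_⟩
    have h1 := h hy
    have h2 := h hz
    calc dist ((‖y‖⁻¹ : ℝ) • y) ((‖z‖⁻¹ : ℝ) • z)
        ≤ dist ((‖y‖⁻¹ : ℝ) • y) ((‖x‖⁻¹ : ℝ) • x) + dist ((‖z‖⁻¹ : ℝ) • z) ((‖x‖⁻¹ : ℝ) • x) :=
          dist_triangle_right _ _ _
      _ < δ := by linarith

section faces

variable {E : Type*} [NormedAddCommGroup E] [NormedSpace ℝ E] {S : Type*} [Fintype S]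
  [DecidableEq S]

open Classical in
/-- almost maximisers -/
noncomputable def Am (p : S → E → ℝ) (w : E) (c : ℝ) : Finset S :=
  Finset.univ.filter (fun s => ∀ t, p t w ≤ p s w + c)

theorem mem_Am {p : S → E → ℝ} {w : E} {c : ℝ} {s : S} :
    s ∈ Am p w c ↔ ∀ t, p t w ≤ p s w + c := by
  classical
  simp [Am]

theorem Am_mono {p : S → E → ℝ} {w : E} {c d : ℝ} (h : c ≤ d) : Am p w c ⊆ Am p w d := by
  intro s hs
  rw [mem_Am] at hs ⊢
  intro t
  have := hs t
  linarith

theorem Am_ne [Nonempty S] {p : S → E → ℝ} {w : E} {c : ℝ} (hc : 0 ≤ c) :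
    (Am p w c).Nonempty := by
  obtain ⟨s, hs⟩ := Finite.exists_max (fun s => p s w)
  exact ⟨s, mem_Am.2 fun t => by have := hs t; linarith⟩

/-- the maximisers: a face -/
noncomputable def arg (p : S → E → ℝ) (w : E) : Finset S := Am p w 0

theorem mem_arg {p : S → E → ℝ} {w : E} {s : S} : s ∈ arg p w ↔ ∀ t, p t w ≤ p s w := by
  unfold arg
  rw [mem_Am]
  simp

/-- a proper face -/
def IsFc (p : S → E → ℝ) (T : Finset S) : Prop := ∃ w, w ≠ 0 ∧ arg p w = T

theorem near {p : S → E → ℝ} {w w' : E} {η c : ℝ} (h : ∀ s, |p s w - p s w'| ≤ η / 4) :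
    Am p w' c ⊆ Am p w (c + η / 2) := by
  intro s hs
  rw [mem_Am] at hs ⊢
  intro t
  have h1 := hs t
  have h2 := abs_le.1 (h t)
  have h3 := abs_le.1 (h s)
  linarith [h2.1, h2.2, h3.1, h3.2]

/-- there is a gap -/
theorem exists_gap [Nonempty S] (p : S → E → ℝ) (w : E) {η : ℝ} (hη : 0 < η) :
    ∃ i ≤ Fintype.card S, Am p w ((i + 1 : ℕ) * η) = Am p w ((i + 2 : ℕ) * η) := by
  by_contra hcon
  push Not at hcon
  have key : ∀ i ≤ Fintype.card S + 1, i < (Am p w ((i + 1 : ℕ) * η)).card := by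
    intro i
    induction i with
    | zero =>
      intro _
      exact (Am_ne (by positivity)).card_pos
    | succ i ih =>
      intro hi
      have h1 := ih (by omega)
      have h2 : Am p w ((i + 1 : ℕ) * η) ⊂ Am p w ((i + 1 + 1 : ℕ) * η) := by
        refine (Am_mono ?_).ssubset_of_ne (hcon i (by omega))
        push_cast
        nlinarith
      have := Finset.card_lt_card h2
      omega
  have h1 := key (Fintype.card S + 1) le_rfl
  have h2 := Finset.card_le_univ (Am p w ((Fintype.card S + 1 + 1 : ℕ) * η))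
  omega

open Classical in
/-- index of the first gap -/
noncomputable def gi [Nonempty S] (p : S → E → ℝ) (w : E) {η : ℝ} (hη : 0 < η) : ℕ :=
  Nat.find (exists_gap p w hη)

theorem gi_spec [Nonempty S] (p : S → E → ℝ) (w : E) {η : ℝ} (hη : 0 < η) :
    gi p w hη ≤ Fintype.card S ∧
      Am p w ((gi p w hη + 1 : ℕ) * η) = Am p w ((gi p w hη + 2 : ℕ) * η) := by
  classical
  exact Nat.find_spec (exists_gap p w hη)

/-- the set attached to `w` -/
noncomputable def Tw [Nonempty S] (p : S → E → ℝ) (w : E) {η : ℝ} (hη : 0 < η) : Finset S :=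
  Am p w ((gi p w hη + 1 : ℕ) * η)

theorem Tw_le [Nonempty S] {p : S → E → ℝ} {w w' : E} {η : ℝ} (hη : 0 < η)
    (h : ∀ s, |p s w - p s w'| ≤ η / 4) (hi : gi p w hη ≤ gi p w' hη) :
    Tw p w hη ⊆ Tw p w' hη := by
  have h' : ∀ s, |p s w' - p s w| ≤ η / 4 := fun s => by rw [abs_sub_comm]; exact h s
  have e := (gi_spec p w' hη).2
  unfold Tw
  rw [e]
  have h1 : Am p w (((gi p w hη + 1 : ℕ) : ℝ) * η) ⊆
      Am p w' (((gi p w hη + 1 : ℕ) : ℝ) * η + η / 2) := near h'
  refine h1.trans (Am_mono ?_)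
  have : ((gi p w hη : ℕ) : ℝ) ≤ (gi p w' hη : ℕ) := by exact_mod_cast hi
  push_cast
  nlinarith

theorem Tw_comparable [Nonempty S] {p : S → E → ℝ} {w w' : E} {η : ℝ} (hη : 0 < η)
    (h : ∀ s, |p s w - p s w'| ≤ η / 4) :
    Tw p w hη ⊆ Tw p w' hη ∨ Tw p w' hη ⊆ Tw p w hη := by
  rcases le_total (gi p w hη) (gi p w' hη) with hi | hi
  · exact Or.inl (Tw_le hη h hi)
  · exact Or.inr (Tw_le hη (fun s => by rw [abs_sub_comm]; exact h s) hi)

/-- symmetry -/
theorem Am_neg {p : S → E → ℝ} {σ : S → S} (hσ : ∀ s, σ (σ s) = s)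
    (hp : ∀ s w, p (σ s) w = - p s w) (hn : ∀ s w, p s (-w) = - p s w) (w : E) (c : ℝ) :
    Am p (-w) c = (Am p w c).image σ := by
  ext s
  rw [mem_Am, Finset.mem_image]
  constructor
  · intro h
    refine ⟨σ s, mem_Am.2 fun t => ?_, hσ s⟩
    have := h (σ t)
    rw [hn, hn, hp] at this
    rw [hp]
    linarith
  · rintro ⟨r, hr, rfl⟩ t
    have := mem_Am.1 hr (σ t)
    rw [hp] at this
    rw [hn, hn, hp]
    linarith

theorem gi_neg [Nonempty S] {p : S → E → ℝ} {σ : S → S} (hσ : ∀ s, σ (σ s) = s)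
    (hp : ∀ s w, p (σ s) w = - p s w) (hn : ∀ s w, p s (-w) = - p s w) (w : E) {η : ℝ}
    (hη : 0 < η) : gi p (-w) hη = gi p w hη := by
  classical
  have hinj : Function.Injective (fun T : Finset S => T.image σ) :=
    Finset.image_injective (fun a b h => by rw [← hσ a, ← hσ b, h])
  unfold gi
  apply Nat.find_congr'
  intro i
  rw [Am_neg hσ hp hn, Am_neg hσ hp hn]
  exact and_congr_right fun _ => hinj.eq_iff

theorem Tw_neg [Nonempty S] {p : S → E → ℝ} {σ : S → S} (hσ : ∀ s, σ (σ s) = s)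
    (hp : ∀ s w, p (σ s) w = - p s w) (hn : ∀ s w, p s (-w) = - p s w) (w : E) {η : ℝ}
    (hη : 0 < η) : Tw p (-w) hη = (Tw p w hη).image σ := by
  unfold Tw
  rw [Am_neg hσ hp hn, gi_neg hσ hp hn]

end faces

section main

variable {E : Type*} [NormedAddCommGroup E] [NormedSpace ℝ E] [FiniteDimensional ℝ E]
  {S : Type*} [Fintype S] [DecidableEq S]

/-- almost maximisers lie in one face, uniformly -/
theorem exists_eps (p : S → E →ₗ[ℝ] ℝ) : ∃ ε > 0, ∀ w : E, ‖w‖ = 1 →
    ∃ w1, w1 ≠ 0 ∧ Am (fun s => p s) w ε ⊆ arg (fun s => p s) w1 := by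
  have hpc : ∀ s, Continuous (p s) := fun s => (p s).continuous_of_finiteDimensional
  have hK : IsCompact (Metric.sphere (0 : E) 1) := isCompact_sphere _ _
  have := hK.induction_on (p := fun K => ∃ ε > 0, ∀ w ∈ K, w ∈ Metric.sphere (0 : E) 1 →
    ∃ w1, w1 ≠ 0 ∧ Am (fun s => p s) w ε ⊆ arg (fun s => p s) w1)
    ⟨1, one_pos, by simp⟩
    (fun s t hst ⟨ε, hε, h⟩ => ⟨ε, hε, fun w hw => h w (hst hw)⟩)
    (fun s t ⟨ε, hε, h⟩ ⟨ε', hε', h'⟩ => ⟨min ε ε', lt_min hε hε', fun w hw hw1 => by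
      rcases hw with hw | hw
      · obtain ⟨w1, h1, h2⟩ := h w hw hw1
        exact ⟨w1, h1, (Am_mono (min_le_left _ _)).trans h2⟩
      · obtain ⟨w1, h1, h2⟩ := h' w hw hw1
        exact ⟨w1, h1, (Am_mono (min_le_right _ _)).trans h2⟩⟩)
    (fun w0 hw0 => by
      -- minimal positive difference at w0
      have hloc : ∀ q : S × S, ∃ ε > 0, ∃ U ∈ nhds w0, ∀ w ∈ U,
          p q.1 w0 < p q.2 w0 → ¬ (p q.2 w ≤ p q.1 w + ε) := by
        intro q
        by_cases hq : p q.1 w0 < p q.2 w0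
        · refine ⟨(p q.2 w0 - p q.1 w0) / 2, by linarith,
            {w | (p q.2 w0 - p q.1 w0) / 2 < p q.2 w - p q.1 w}, ?_, ?_⟩
          · apply IsOpen.mem_nhds
            · exact isOpen_lt continuous_const ((hpc _).sub (hpc _))
            · show (p q.2 w0 - p q.1 w0) / 2 < p q.2 w0 - p q.1 w0
              linarith
          · intro w hw _
            have : (p q.2 w0 - p q.1 w0) / 2 < p q.2 w - p q.1 w := hw
            linarith
        · exact ⟨1, one_pos, Set.univ, Filter.univ_mem, fun w _ h => absurd h hq⟩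
      choose ε hε U hU h using hloc
      rcases isEmpty_or_nonempty S with hS | hS
      · refine ⟨Set.univ, Filter.univ_mem, 1, one_pos, fun w _ hw => ⟨w0, ?_, ?_⟩⟩
        · rintro rfl
          simp at hw0
        · intro s _
          exact (hS.false s).elim
      obtain ⟨q0, hq0⟩ := Finite.exists_min ε
      refine ⟨⋂ q, U q, mem_nhdsWithin_of_mem_nhds (Filter.iInter_mem.2 hU), ε q0, hε q0,
        fun w hw _ => ⟨w0, ?_, ?_⟩⟩
      · rintro rfl
        simp at hw0
      · intro s hs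
        rw [mem_Am] at hs
        rw [mem_arg]
        intro t
        by_contra hlt
        push Not at hlt
        refine h (s, t) w (Set.mem_iInter.1 hw (s, t)) hlt ?_
        have h1 := hs t
        have h2 := hq0 (s, t)
        show p t w ≤ p s w + ε (s, t)
        have h3 : (fun s => (p s : E → ℝ)) t w = p t w := rfl
        linarith)
  obtain ⟨ε, hε, h⟩ := this
  exact ⟨ε, hε, fun w hw => h w (by simpa using hw) (by simpa using hw)⟩

/-- **Tucker lemma for the face lattice, form with labels on sets.** `L` is a labelling of the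
nonempty sets contained in a proper face. -/
theorem tucker_set (M : ℕ) (hE : Module.finrank ℝ E = M + 1) (p : S → E →ₗ[ℝ] ℝ) (σ : S → S)
    (hσ : ∀ s, σ (σ s) = s) (hp : ∀ s w, p (σ s) w = - p s w) [Nonempty S]
    (L : Finset S → ZMod 2 × ℕ)
    (hodd : ∀ T : Finset S, T.Nonempty → (∃ w, w ≠ 0 ∧ T ⊆ arg (fun s => p s) w) →
      L (T.image σ) = flp (L T))
    (hM : ∀ T : Finset S, T.Nonempty → (∃ w, w ≠ 0 ∧ T ⊆ arg (fun s => p s) w) → (L T).2 < M)
    (hc : ∀ T T' : Finset S, T.Nonempty → T ⊆ T' →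
      (∃ w, w ≠ 0 ∧ T' ⊆ arg (fun s => p s) w) → Compat (L T) (L T')) : False := by
  obtain ⟨ε, hε, hface⟩ := exists_eps p
  set N := Fintype.card S with hN
  let η : ℝ := ε / (N + 2)
  have hη : 0 < η := by positivity
  have hηε : ((N + 1 : ℕ) : ℝ) * η ≤ ε := by
    show ((N + 1 : ℕ) : ℝ) * (ε / (N + 2)) ≤ ε
    rw [mul_div_assoc', div_le_iff₀ (by positivity)]
    push_cast
    nlinarith
  let pp : S → E → ℝ := fun s => p s
  have hb : ∀ w : E, ‖w‖ = 1 → (Tw pp w hη).Nonempty ∧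
      ∃ w1, w1 ≠ 0 ∧ Tw pp w hη ⊆ arg (fun s => p s) w1 := by
    intro w hw
    refine ⟨Am_ne (by positivity), ?_⟩
    obtain ⟨w1, h1, h2⟩ := hface w hw
    refine ⟨w1, h1, (Am_mono ?_).trans h2⟩
    have h3 := (gi_spec pp w hη).1
    have h4 : ((gi pp w hη + 1 : ℕ) : ℝ) ≤ ((N + 1 : ℕ) : ℝ) := by exact_mod_cast (by omega)
    nlinarith
  have hpc : ∀ s, Continuous (p s) := fun s => (p s).continuous_of_finiteDimensional
  refine ls_sph (E := E) M hE (fun w => L (Tw pp w hη)) ?_ ?_ ?_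
  · intro w hw
    obtain ⟨h1, h2⟩ := hb w hw
    show L (Tw pp (-w) hη) = _
    rw [Tw_neg hσ hp (fun s w => by simp [pp]) w hη]
    exact hodd _ h1 h2
  · intro w hw
    obtain ⟨h1, h2⟩ := hb w hw
    exact hM _ h1 h2
  · -- uniform modulus
    have hbound : ∃ C > 0, ∀ s, ∀ x : E, |p s x| ≤ C * ‖x‖ := by
      have : ∀ s, ∃ C > 0, ∀ x : E, |p s x| ≤ C * ‖x‖ := by
        intro s
        obtain ⟨C, hC, h⟩ := (LinearMap.toContinuousLinearMap (p s)).bound
        exact ⟨C, hC, h⟩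
      choose C hC h using this
      obtain ⟨s0, hs0⟩ := Finite.exists_max C
      refine ⟨C s0, hC s0, fun s x => (h s x).trans ?_⟩
      exact mul_le_mul_of_nonneg_right (hs0 s) (norm_nonneg _)
    obtain ⟨C, hC, hCb⟩ := hbound
    refine ⟨η / 4 / C, by positivity, fun y z hy hz hyz => ?_⟩
    have hyz' : ∀ s, |pp s y - pp s z| ≤ η / 4 := by
      intro s
      have h1 : pp s y - pp s z = p s (y - z) := by simp [pp]
      rw [h1]
      refine (hCb s _).trans ?_
      rw [dist_eq_norm, lt_div_iff₀ hC] at hyz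
      linarith
    obtain ⟨hy1, hy2⟩ := hb y hy
    obtain ⟨hz1, hz2⟩ := hb z hz
    rcases Tw_comparable hη hyz' with h | h
    · exact hc _ _ hy1 h hz2
    · exact compat_symm (hc _ _ hz1 h hy2)

end main

end Pool.Agent.H37.BU
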