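import Pool.Agent.H37.BU.Poly

/-!
# Polytopal Tucker lemma for finite symmetric sets of integer vectors of sum zero
-/

namespace Pool.Agent.H37.BU

open Pool.Agent.H73.Avr

variable {V : Type*} [Fintype V] [DecidableEq V]

/-- sum of the coordinates -/
noncomputable def sm (V : Type*) [Fintype V] : (V → ℝ) →ₗ[ℝ] ℝ := ∑ v, LinearMap.proj v

theorem sm_apply (w : V → ℝ) : sm V w = ∑ v, w v := by
  simp [sm, LinearMap.sum_apply]

/-- sum zero vectors -/
abbrev E0 (V : Type*) [Fintype V] : Type _ := LinearMap.ker (sm V)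

theorem finrank_E0 [Nonempty V] : Module.finrank ℝ (E0 V) + 1 = Fintype.card V := by
  have h := LinearMap.finrank_range_add_finrank_ker (sm V)
  rw [Module.finrank_fintype_fun_eq_card] at h
  have hs : Function.Surjective (sm V) := by
    classical
    intro r
    obtain ⟨v⟩ := ‹Nonempty V›
    refine ⟨Pi.single v r, ?_⟩
    rw [sm_apply]
    simp
  rw [LinearMap.range_eq_top.2 hs, finrank_top, Module.finrank_self] at h
  have h' : 1 + Module.finrank ℝ (E0 V) = Fintype.card V := h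
  omega

/-- maximisers of `w` over `X` -/
def IsMx (X : Finset (V → ℤ)) (w : V → ℝ) (x : V → ℤ) : Prop :=
  x ∈ X ∧ ∀ y ∈ X, ∑ v, w v * y v ≤ ∑ v, w v * x v

/-- **Polytopal Tucker lemma** for a finite symmetric set `X` of integer vectors of sum zero which
is not contained in a hyperplane, and an odd labelling by `|V| - 2` colours. -/
theorem tucker_V (X : Finset (V → ℤ)) (hneg : ∀ x ∈ X, -x ∈ X) (hsum : ∀ x ∈ X, ∑ v, x v = 0)
    (hcard : 2 ≤ Fintype.card V)
    (hsep : ∀ w : V → ℝ, (¬ ∃ c, ∀ v, w v = c) → ∃ x ∈ X, ∑ v, w v * (x v : ℝ) ≠ 0)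
    (lam : (V → ℤ) → ZMod 2 × ℕ) (hodd : ∀ x ∈ X, lam (-x) = ((lam x).1 + 1, (lam x).2))
    (hM : ∀ x ∈ X, (lam x).2 < Fintype.card V - 2) :
    ∃ w : V → ℝ, (¬ ∃ c, ∀ v, w v = c) ∧ ∀ x, IsMx X w x →
      ∃ y, IsMx X w y ∧ lam y = ((lam x).1 + 1, (lam x).2) := by
  classical
  have hV : Nonempty V := Fintype.card_pos_iff.1 (by omega)
  have hfr := finrank_E0 (V := V)
  -- nonzero sum zero vectors are not constant
  have hnc : ∀ w : E0 V, w ≠ 0 → ¬ ∃ c, ∀ v, w.1 v = c := by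
    rintro ⟨w, hw⟩ hw0 ⟨c, hc⟩
    apply hw0
    have h1 : sm V w = 0 := hw
    rw [sm_apply] at h1
    have h2 : w = fun _ => c := funext hc
    rw [h2] at h1
    have h3 : c = 0 := by
      simp only [Finset.sum_const, Finset.card_univ, nsmul_eq_mul] at h1
      rcases mul_eq_zero.1 h1 with h | h
      · have : (Fintype.card V : ℝ) ≠ 0 := by
          exact_mod_cast (by omega : Fintype.card V ≠ 0)
        exact absurd h this
      · exact h
    apply Subtype.ext
    show w = 0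
    rw [h2, h3]
    rfl
  let p : {x // x ∈ X} → E0 V →ₗ[ℝ] ℝ := fun x =>
    (∑ v, (x.1 v : ℝ) • (LinearMap.proj v : (V → ℝ) →ₗ[ℝ] ℝ)) ∘ₗ (LinearMap.ker (sm V)).subtype
  have hp : ∀ (x : {x // x ∈ X}) (w : E0 V), p x w = ∑ v, w.1 v * (x.1 v : ℝ) := by
    intro x w
    simp [p, LinearMap.sum_apply, mul_comm]
  let σ : {x // x ∈ X} → {x // x ∈ X} := fun x => ⟨-x.1, hneg _ x.2⟩
  obtain ⟨w, hw0, hw⟩ := tucker_vertex (E := E0 V) (Fintype.card V - 2) (by omega) p σ
    (fun x => by simp [σ]) (fun x w => by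
      rw [hp, hp]
      simp only [σ, Pi.neg_apply, Int.cast_neg, mul_neg, Finset.sum_neg_distrib])
    (fun w hw => by
      obtain ⟨x, hx, h⟩ := hsep w.1 (hnc w hw)
      exact ⟨⟨x, hx⟩, by rw [hp]; exact h⟩)
    (fun x => lam x.1) (fun x => hodd x.1 x.2) (fun x => hM x.1 x.2)
  have hmx : ∀ x : {x // x ∈ X}, x ∈ arg (fun s => (p s : E0 V → ℝ)) w ↔ IsMx X w.1 x.1 := by
    intro x
    rw [mem_arg]
    constructor
    · intro h
      refine ⟨x.2, fun y hy => ?_⟩
      have := h ⟨y, hy⟩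
      rw [hp, hp] at this
      exact this
    · rintro ⟨_, h⟩ y
      rw [hp, hp]
      exact h y.1 y.2
  refine ⟨w.1, hnc w hw0, fun x hx => ?_⟩
  obtain ⟨t, ht, h⟩ := hw ⟨x, hx.1⟩ ((hmx _).2 hx)
  exact ⟨t.1, (hmx _).1 ht, h⟩

end Pool.Agent.H37.BU
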